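import Pool.Agent.RCM.Stmts3

/-! RCM, row FIR: the final statement (helper6, edited copy of Helper68_RCM/FIN.lean). -/

set_option autoImplicit false

namespace Pool.Agent.RCM.H6R

open Set Pool.Agent.RCM

universe u

section

variable {α : Type u} {m : ℕ} (S : Fin m → Finset α)

/-- the coloured ground set -/
abbrev EE : Type u := (i : Fin m) × {x // x ∈ S i}

/-- the element -/
def vv (e : EE S) : α := (e.2 : α)

theorem vv_inj (c : Fin m) : InjOn (vv S) ((Sigma.fst : EE S → Fin m) ⁻¹' {c}) := by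
  rintro ⟨i, x⟩ hi ⟨j, y⟩ hj h
  rw [mem_preimage, mem_singleton_iff] at hi hj
  simp only at hi hj
  subst hi
  subst hj
  have h1 : x = y := Subtype.ext h
  rw [h1]

theorem vv_image (c : Fin m) : vv S '' ((Sigma.fst : EE S → Fin m) ⁻¹' {c}) = (S c : Set α) := by
  ext x
  constructor
  · rintro ⟨⟨i, y⟩, hi, rfl⟩
    rw [mem_preimage, mem_singleton_iff] at hi
    simp only at hi
    subst hi
    exact y.2
  · intro hx
    exact ⟨⟨c, ⟨x, hx⟩⟩, rfl, rfl⟩

theorem card_fib (c : Fin m) : ((Sigma.fst : EE S → Fin m) ⁻¹' {c}).ncard = (S c).card := by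
  rw [← (vv_inj S c).ncard_image, vv_image, ncard_coe_finset]

/-- one of the matroids on the coloured ground set -/
theorem key (lba : LbaStmt.{u}) (bcl : BclStmt.{u}) (trq : TrqStmt.{u}) (C : ℕ) (ε : ℝ) (z₀ : ℕ)
    (sup : ∀ (E : Type u) (K : Type) [Finite E] [Finite K]
      (M N : Matroid E) (κ : E → K) (s : ℕ), Col M N κ s →
      LB M N κ s (fun z => if z < z₀ then 0 else C * z))
    (tra : ∀ (E : Type u) (K : Type) [Finite E] [Finite K]
      (M N : Matroid E) (κ : E → K) (s : ℕ) (R : Type u) [Finite R] (r : E → R), Col M N κ s →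
      (∀ I, M.Indep I ↔ InjOn r I) →
      LB M N κ s (fun z => if z < z₀ then 0 else ⌊(1 / 2 - ε) * (z : ℝ) ^ 2⌋₊))
    (M : Matroid α) (s : ℕ)
    (F : ℕ → ℕ) (hM : ∀ i, M.Indep (S i : Set α)) (hB : Bnc M S s C ε z₀ F) :
    ∃ M' : Matroid (EE S), (∀ c, M'.Indep ((Sigma.fst : EE S → Fin m) ⁻¹' {c})) ∧
      (∀ N' : Matroid (EE S), Col M' N' (Sigma.fst : EE S → Fin m) s →
        LB M' N' (Sigma.fst : EE S → Fin m) s F) ∧
      (∀ T, M'.Indep T → InjOn (vv S) T ∧ M.Indep (vv S '' T)) ∧ Monotone F := by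
  have hfin : Finite (EE S) := inferInstance
  have hmem : ∀ (T : Set (EE S)), ∀ x ∈ vv S '' T, ∃ i, x ∈ S i := by
    rintro T _ ⟨⟨i, x⟩, _, rfl⟩
    exact ⟨i, x.2⟩
  have hpar : ∀ (R : Type u) (r : α → R), Part M S R r →
      ∃ M' : Matroid (EE S), (∀ I, M'.Indep I ↔ InjOn (r ∘ vv S) I) ∧
        (∀ c, M'.Indep ((Sigma.fst : EE S → Fin m) ⁻¹' {c})) ∧
        (∀ T, M'.Indep T → InjOn (vv S) T ∧ M.Indep (vv S '' T)) := by
    rintro R r ⟨hS, h⟩
    have hI : ∀ I, ((Matroid.freeOn univ : Matroid R).comap (r ∘ vv S)).Indep I ↔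
        InjOn (r ∘ vv S) I := by
      intro I
      rw [Matroid.comap_indep_iff, Matroid.freeOn_indep_iff]
      exact ⟨fun h => h.2, fun h => ⟨subset_univ _, h⟩⟩
    refine ⟨_, hI, ?_, ?_⟩
    · intro c
      rw [hI]
      refine InjOn.comp (t := (S c : Set α)) (hS c) (vv_inj S c) ?_
      rw [mapsTo_iff_image_subset, vv_image]
    · intro T hT
      rw [hI] at hT
      refine ⟨hT.of_comp, h _ (hmem T) ?_⟩
      rintro _ ⟨a, ha, rfl⟩ _ ⟨b, hb, rfl⟩ hab
      rw [hT ha hb hab]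
  cases hB with
  | any =>
    refine ⟨M.comap (vv S), ?_, ?_, ?_, ?_⟩
    · intro c
      rw [Matroid.comap_indep_iff, vv_image]
      exact ⟨hM c, vv_inj S c⟩
    · intro N' hc t P X T z hmx hst hun hz
      exact max_le (lba _ _ _ _ _ _ hc t P X T z hmx hst hun hz)
        (sup _ _ _ _ _ _ hc t P X T z hmx hst hun hz)
    · intro T hT
      rw [Matroid.comap_indep_iff] at hT
      exact ⟨hT.2, hT.1⟩
    · intro x y hxy
      refine max_le_max ?_ ?_
      · show 3 * x / 2 ≤ 3 * y / 2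
        omega
      · by_cases hx : x < z₀
        · rw [if_pos hx]
          exact Nat.zero_le _
        · rw [if_neg hx, if_neg (by omega)]
          exact Nat.mul_le_mul_left _ hxy
  | par R hR r h =>
    obtain ⟨M', h1, h2, h3⟩ := hpar R r h
    refine ⟨M', h2, ?_, h3, ?_⟩
    · intro N' hc
      have e1 := lba _ _ _ _ _ _ hc
      have e2 := trq _ _ _ _ _ _ R _ hc h1
      have e3 := tra _ _ _ _ _ _ R _ hc h1
      intro t P X T z hmx hst hun hz
      exact max_le (max_le (e1 t P X T z hmx hst hun hz) (e2 t P X T z hmx hst hun hz))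
        (e3 t P X T z hmx hst hun hz)
    · intro x y hxy
      refine max_le_max (max_le_max ?_ ?_) ?_
      · omega
      · exact Nat.div_le_div_right (Nat.add_le_add_right (Nat.pow_le_pow_left hxy 2) 3)
      · by_cases hx : x < z₀
        · rw [if_pos hx]
          exact Nat.zero_le _
        · rw [if_neg hx, if_neg (by omega)]
          rcases le_or_gt 0 (1 / 2 - ε) with he | he
          · refine Nat.floor_le_floor (mul_le_mul_of_nonneg_left ?_ he)
            have h1 : (x : ℝ) ≤ (y : ℝ) := by exact_mod_cast hxy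
            exact pow_le_pow_left₀ (Nat.cast_nonneg x) h1 2
          · have h1 : (1 / 2 - ε) * (x : ℝ) ^ 2 ≤ 0 :=
              mul_nonpos_of_nonpos_of_nonneg he.le (sq_nonneg _)
            rw [Nat.floor_of_nonpos h1]
            exact Nat.zero_le _
  | arr R hR r h hs =>
    obtain ⟨M', h1, h2, h3⟩ := hpar R r h
    refine ⟨M', h2, ?_, h3, ?_⟩
    · intro N' hc
      have := Fintype.ofFinite R
      refine bcl _ _ _ _ _ _ R _ hc h1 ?_
      rw [← Nat.card_eq_fintype_card]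
      exact hs
    · intro x y hxy
      refine Nat.add_le_add ?_ (by omega)
      exact Nat.div_le_div_right (Nat.mul_le_mul hxy (by omega))

end

/-- FIR -/
theorem fir (asm : AsmStmt.{u}) (lba : LbaStmt.{u}) (bcl : BclStmt.{u}) (trq : TrqStmt.{u})
    (tra : TraStmt.{u}) (sup : SupStmt.{u}) : FirStmt.{u} := by
  intro C ε hε
  obtain ⟨z₁, hz₁⟩ := tra ε hε
  obtain ⟨z₂, hz₂⟩ := sup C
  obtain ⟨z₀, hz₀⟩ : ∃ z₀, z₀ = max z₁ z₂ := ⟨_, rfl⟩
  refine ⟨z₀, ?_⟩
  have mono : ∀ (E : Type u) (K : Type) (M N : Matroid E) (κ : E → K) (s z₃ : ℕ) (f : ℕ → ℕ),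
      z₃ ≤ z₀ → LB M N κ s (fun z => if z < z₃ then 0 else f z) →
      LB M N κ s (fun z => if z < z₀ then 0 else f z) := by
    intro E K M N κ s z₃ f hz h t P X T z hmx hst hun hzs
    have h1 := h t P X T z hmx hst hun hzs
    show (if z < z₀ then 0 else f z) ≤ _
    by_cases hx : z < z₀
    · rw [if_pos hx]
      exact Nat.zero_le _
    · rw [if_neg hx]
      have h2 : ¬ z < z₃ := by omega
      have h3 : (if z < z₃ then 0 else f z) ≤ (T \ Sta M N κ P X T).ncard := h1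
      rw [if_neg h2] at h3
      exact h3
  have hsup : ∀ (E : Type u) (K : Type) [Finite E] [Finite K]
      (M N : Matroid E) (κ : E → K) (s : ℕ), Col M N κ s →
      LB M N κ s (fun z => if z < z₀ then 0 else C * z) := by
    intro E K _ _ M N κ s hc
    exact mono _ _ _ _ _ _ z₂ (fun z => C * z) (by rw [hz₀]; exact le_max_right _ _)
      (hz₂ _ _ _ _ _ _ hc)
  have htra : ∀ (E : Type u) (K : Type) [Finite E] [Finite K]
      (M N : Matroid E) (κ : E → K) (s : ℕ) (R : Type u) [Finite R] (r : E → R), Col M N κ s →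
      (∀ I, M.Indep I ↔ InjOn r I) →
      LB M N κ s (fun z => if z < z₀ then 0 else ⌊(1 / 2 - ε) * (z : ℝ) ^ 2⌋₊) := by
    intro E K _ _ M N κ s R _ r hc hr
    exact mono _ _ _ _ _ _ z₁ (fun z => ⌊(1 / 2 - ε) * (z : ℝ) ^ 2⌋₊)
      (by rw [hz₀]; exact le_max_left _ _) (hz₁ _ _ _ _ _ _ R r hc hr)
  intro α M N m s τ S F G hM hN hcard hF hG hτ hcond
  classical
  obtain ⟨M', a1, a2, a3, a4⟩ := key S lba bcl trq C ε z₀ hsup htra M s F hM hF
  obtain ⟨N', b1, b2, b3, b4⟩ := key S lba bcl trq C ε z₀ hsup htra N s G hN hG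
  have hc : ∀ c, s ≤ ((Sigma.fst : EE S → Fin m) ⁻¹' {c}).ncard := by
    intro c
    rw [card_fib]
    exact hcard c
  have hcond' : (τ < Fintype.card (Fin m) ∧ (τ < F (s - τ) ∨ τ < G (s - τ)) ∨
      τ + 2 ≤ Fintype.card (Fin m) ∧
        τ < F (s - τ) + G (s - τ) + (Fintype.card (Fin m) - τ - 2) * (s - τ)) := by
    rw [Fintype.card_fin]
    exact hcond
  obtain ⟨T, hT, hTc⟩ := asm (EE S) (Fin m) M' N' (Sigma.fst : EE S → Fin m) s τ F G
    ⟨a1, b1, hc⟩ (a2 N' ⟨a1, b1, hc⟩) (b2 M' ⟨b1, a1, hc⟩) a4 b4 hτ hcond'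
  obtain ⟨hinj, hMi⟩ := a3 T hT.indM
  obtain ⟨-, hNi⟩ := b3 T hT.indN
  have hTfin : T.Finite := Set.toFinite T
  have hTne : T.Nonempty := by
    rw [← Set.ncard_pos hTfin]
    omega
  obtain ⟨e0, he0⟩ := hTne
  obtain ⟨J, hJ⟩ : ∃ J : Finset (Fin m), J = hTfin.toFinset.image Sigma.fst := ⟨_, rfl⟩
  have hJm : ∀ i, i ∈ J ↔ ∃ e ∈ T, e.1 = i := by
    intro i
    rw [hJ, Finset.mem_image]
    simp only [Set.Finite.mem_toFinset]
  have hJc : J.card = T.ncard := by
    rw [hJ, Finset.card_image_of_injOn, Set.ncard_eq_toFinset_card T hTfin]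
    intro a ha b hb hab
    rw [Finset.mem_coe, Set.Finite.mem_toFinset] at ha hb
    exact hT.inj ha hb hab
  have hex : ∀ i : Fin m, ∃ e ∈ T, i ∈ J → e.1 = i := by
    intro i
    by_cases hi : i ∈ J
    · obtain ⟨e, he, hei⟩ := (hJm i).1 hi
      exact ⟨e, he, fun _ => hei⟩
    · exact ⟨e0, he0, fun h => absurd h hi⟩
  choose f hf1 hf2 using hex
  refine ⟨J, fun i => vv S (f i), by rw [hJc]; exact hTc, ?_, ?_, ?_, ?_⟩
  · intro i hi
    have h1 : ∀ e : EE S, ∀ j, e.1 = j → vv S e ∈ S j := by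
      rintro ⟨j, x⟩ _ rfl
      exact x.2
    exact h1 (f i) i (hf2 i hi)
  · intro i hi j hj hij
    rw [Finset.mem_coe] at hi hj
    have h1 := hinj (hf1 i) (hf1 j) hij
    rw [← hf2 i hi, ← hf2 j hj, h1]
  · refine hMi.subset ?_
    rintro _ ⟨i, _, rfl⟩
    exact ⟨f i, hf1 i, rfl⟩
  · refine hNi.subset ?_
    rintro _ ⟨i, _, rfl⟩
    exact ⟨f i, hf1 i, rfl⟩

end Pool.Agent.RCM.H6R
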